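import Mathlib

set_option autoImplicit false

namespace Pool.Agent.H47

/-- Real inequality behind the shear flow `z ↦ (μ z₁, μ z₂ + (5/2) μ (1-μ) z₁²)`. -/
theorem shear_real (a s x : ℝ) (ha : 0 ≤ a) (hx : x ^ 2 ≤ a ^ 2 * s ^ 2)
    (hN : a + s ^ 2 ≤ 1) (t : ℝ) (ht0 : 0 ≤ t) (ht1 : t ≤ 1) :
    (1 - t) ^ 2 * (a + s ^ 2 + 5 * t * x + 25 / 4 * t ^ 2 * a ^ 2) ≤ a + s ^ 2 := by
  rcases eq_or_lt_of_le (show 0 ≤ a + s ^ 2 by positivity) with h0 | hpos
  · have ha0 : a = 0 := by nlinarith [sq_nonneg s]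
    have hs0 : s ^ 2 = 0 := by nlinarith
    have hx0 : x = 0 := by
      have : x ^ 2 ≤ 0 := by rw [ha0] at hx; simpa using hx
      have := le_antisymm this (sq_nonneg x)
      exact pow_eq_zero_iff (two_ne_zero) |>.1 this
    subst ha0 hx0
    rw [hs0]; simp
  obtain ⟨N, hNdef⟩ : ∃ N, N = a + s ^ 2 := ⟨_, rfl⟩
  rw [← hNdef] at hpos hN ⊢
  let f : ℝ → ℝ := fun t => (1 - t) ^ 2 * (N + 5 * t * x + 25 / 4 * t ^ 2 * a ^ 2)
  let f' : ℝ → ℝ := fun t => -2 * (1 - t) * (N + 5 * t * x + 25 / 4 * t ^ 2 * a ^ 2)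
    + (1 - t) ^ 2 * (5 * x + 25 / 2 * t * a ^ 2)
  have hf : ∀ t, HasDerivAt f (f' t) t := by
    intro t
    have h1 : HasDerivAt (fun t : ℝ => (1 - t) ^ 2) (-2 * (1 - t)) t := by
      have := ((hasDerivAt_id t).const_sub 1).pow 2
      exact this.congr_deriv (by simp)
    have h2 : HasDerivAt (fun t : ℝ => N + 5 * t * x + 25 / 4 * t ^ 2 * a ^ 2)
        (5 * x + 25 / 2 * t * a ^ 2) t := by
      have h := ((((hasDerivAt_id t).const_mul 5).mul_const x).const_add N).add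
        ((((hasDerivAt_id t).pow 2).const_mul (25 / 4 : ℝ)).mul_const (a ^ 2))
      exact h.congr_deriv (by simp only [id]; push_cast; ring)
    exact h1.mul h2
  have key : ∀ u ∈ Set.Ico (0 : ℝ) 1, f u = N → f' u < 0 := by
    intro u hu hfu
    have hu1 : 0 < 1 - u := by linarith [hu.2]
    obtain ⟨A, hA⟩ : ∃ A, A = (1 - u) ^ 2 * a := ⟨_, rfl⟩
    obtain ⟨X, hX⟩ : ∃ X, X = (1 - u) ^ 3 * (x + 5 / 2 * u * a ^ 2) := ⟨_, rfl⟩
    have hA0 : 0 ≤ A := by rw [hA]; positivity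
    have hNA : N - A = (1 - u) ^ 2 * (s ^ 2 + 5 * u * x + 25 / 4 * u ^ 2 * a ^ 2) := by
      rw [← hfu]; simp only [f, hA]; rw [hNdef]; ring
    have hXle : X ^ 2 ≤ A ^ 2 * (N - A) := by
      rw [hNA, hX, hA]
      have h6 : (1 - u) ^ 6 * x ^ 2 ≤ (1 - u) ^ 6 * (a ^ 2 * s ^ 2) :=
        mul_le_mul_of_nonneg_left hx (by positivity)
      have e1 : ((1 - u) ^ 3 * (x + 5 / 2 * u * a ^ 2)) ^ 2 = (1 - u) ^ 6 * x ^ 2 +
        (1 - u) ^ 6 * (5 * u * x * a ^ 2 + 25/4 * u ^ 2 * a ^ 4) := by ring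
      have e2 : ((1 - u) ^ 2 * a) ^ 2 * ((1 - u) ^ 2 *
          (s ^ 2 + 5 * u * x + 25 / 4 * u ^ 2 * a ^ 2)) = (1 - u) ^ 6 * (a ^ 2 * s ^ 2) +
          (1 - u) ^ 6 * (5 * u * x * a ^ 2 + 25/4 * u ^ 2 * a ^ 4) := by ring
      rw [e1, e2]; linarith
    have hcub : A ^ 2 * (N - A) ≤ 4 / 27 * N ^ 3 := by
      have e : 4 / 27 * N ^ 3 - A ^ 2 * (N - A) = (A - 2 * N / 3) ^ 2 * (A + N / 3) := by ring
      have : 0 ≤ (A - 2 * N / 3) ^ 2 * (A + N / 3) := by positivity
      linarith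
    have hN3 : N ^ 3 ≤ N ^ 2 := by
      have : N ^ 2 * N ≤ N ^ 2 * 1 := mul_le_mul_of_nonneg_left hN (by positivity)
      nlinarith
    have hN2 : 0 < N ^ 2 := by positivity
    have hX2 : (5 * X) ^ 2 < (2 * N) ^ 2 := by nlinarith
    have hX3 : 5 * X < 2 * N := lt_of_pow_lt_pow_left₀ 2 (by positivity) hX2
    have hid : (1 - u) * f' u = -2 * f u + 5 * X := by
      simp only [f, f', hX]; ring
    have h7 : (1 - u) * f' u < 0 := by rw [hid, hfu]; linarith
    by_contra hcon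
    push Not at hcon
    have := mul_nonneg hu1.le hcon
    linarith
  have main : ∀ ⦃u⦄, u ∈ Set.Icc (0 : ℝ) 1 → f u ≤ N := by
    apply image_le_of_deriv_right_lt_deriv_boundary (f := f) (f' := f') (B := fun _ => N)
      (B' := fun _ => 0)
    · exact fun t _ => (hf t).continuousAt.continuousWithinAt
    · exact fun t _ => (hf t).hasDerivWithinAt
    · simp [f]
    · exact fun t => hasDerivAt_const t N
    · exact key
  exact main ⟨ht0, ht1⟩

/-- Real inequality behind the starlike flow in Siegel coordinates. -/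
theorem star_real (x : ℝ) (m : ℝ) (hm0 : 0 < m) (hm1 : m ≤ 1) :
    m ^ 2 * (1 + 2 * x) * Real.exp (-(2 * (291 / 50) * (1 - m) * x)) ≤ 1 + 2 * m * x := by
  let R : ℝ → ℝ := fun m => (1 + 2 * m * x) * Real.exp (-(2 * (291 / 50) * m * x)) / m ^ 2
  have hR : ∀ m : ℝ, 0 < m → HasDerivAt R
      (-(2 * Real.exp (-(2 * (291 / 50) * m * x)) / m ^ 3) *
        (1 + (1 + 291 / 50) * (m * x) + 2 * (291 / 50) * (m * x) ^ 2)) m := by
    intro m hm
    have h1 : HasDerivAt (fun m : ℝ => 1 + 2 * m * x) (2 * x) m := by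
      have := (((hasDerivAt_id m).const_mul 2).mul_const x).const_add 1
      exact this.congr_deriv (by simp)
    have h2 : HasDerivAt (fun m : ℝ => Real.exp (-(2 * (291 / 50) * m * x)))
        (Real.exp (-(2 * (291 / 50) * m * x)) * (-(2 * (291 / 50) * x))) m := by
      have e : HasDerivAt (fun m : ℝ => -(2 * (291 / 50) * m * x)) (-(2 * (291 / 50) * x)) m := by
        have := (((hasDerivAt_id m).const_mul (2 * (291 / 50) : ℝ)).mul_const x).neg
        exact this.congr_deriv (by simp)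
      exact e.exp
    have h3 : HasDerivAt (fun m : ℝ => m ^ 2) (2 * m) m := by
      have := (hasDerivAt_id m).pow 2
      exact this.congr_deriv (by simp)
    have h := (h1.mul h2).div h3 (by positivity)
    refine h.congr_deriv ?_
    have hm' : m ≠ 0 := hm.ne'
    simp only [Pi.mul_apply]
    field_simp
    ring
  have hanti : AntitoneOn R (Set.Icc m 1) := by
    apply antitoneOn_of_deriv_nonpos (convex_Icc m 1)
    · exact fun u hu => (hR u (lt_of_lt_of_le hm0 hu.1)).continuousAt.continuousWithinAt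
    · intro u hu
      rw [interior_Icc] at hu
      exact (hR u (lt_trans hm0 hu.1)).differentiableAt.differentiableWithinAt
    · intro u hu
      rw [interior_Icc] at hu
      have hu0 : 0 < u := lt_trans hm0 hu.1
      rw [(hR u hu0).deriv]
      have hq : 0 ≤ 1 + (1 + 291 / 50) * (u * x) + 2 * (291 / 50) * (u * x) ^ 2 := by
        nlinarith [sq_nonneg (u * x + 341 / 1164)]
      have hp : 0 ≤ 2 * Real.exp (-(2 * (291 / 50) * u * x)) / u ^ 3 := by positivity
      have := mul_nonneg hp hq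
      linarith
  have h := hanti (Set.left_mem_Icc.2 hm1) (Set.right_mem_Icc.2 hm1) hm1
  simp only [R] at h
  have hm2 : 0 < m ^ 2 := by positivity
  rw [le_div_iff₀ hm2] at h
  have hexp : Real.exp (-(2 * (291 / 50) * (1 - m) * x)) =
      Real.exp (-(2 * (291 / 50) * 1 * x)) * Real.exp (2 * (291 / 50) * m * x) := by
    rw [← Real.exp_add]; congr 1; ring
  have hexp2 : Real.exp (-(2 * (291 / 50) * m * x)) * Real.exp (2 * (291 / 50) * m * x) = 1 := by
    rw [← Real.exp_add]; simp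
  rw [hexp]
  have hE : 0 ≤ Real.exp (2 * (291 / 50) * m * x) := (Real.exp_pos _).le
  have h' := mul_le_mul_of_nonneg_right h hE
  have e1 : (1 + 2 * m * x) * Real.exp (-(2 * (291 / 50) * m * x)) *
      Real.exp (2 * (291 / 50) * m * x) = 1 + 2 * m * x := by rw [mul_assoc, hexp2, mul_one]
  rw [e1] at h'
  calc _ = (1 + 2 * 1 * x) * Real.exp (-(2 * (291 / 50) * 1 * x)) / 1 ^ 2 * m ^ 2 *
        Real.exp (2 * (291 / 50) * m * x) := by ring
    _ ≤ _ := h'

end Pool.Agent.H47
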