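import Mathlib
import Pool.Agent.H47.BiebReal

set_option autoImplicit false

namespace Pool.Agent.H47

open Complex

abbrev E2 := EuclideanSpace ℂ (Fin 2)

theorem norm_sq_E2 (z : E2) : ‖z‖ ^ 2 = ‖z 0‖ ^ 2 + ‖z 1‖ ^ 2 := by
  rw [EuclideanSpace.norm_sq_eq, Fin.sum_univ_two]

theorem mem_ball_E2 (z : E2) : z ∈ Metric.ball (0 : E2) 1 ↔ ‖z 0‖ ^ 2 + ‖z 1‖ ^ 2 < 1 := by
  rw [mem_ball_zero_iff, ← norm_sq_E2]
  constructor
  · intro h; nlinarith [norm_nonneg z]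
  · intro h; nlinarith [norm_nonneg z]

/-- The shear flow. -/
noncomputable def sh (m : ℝ) (z : E2) : E2 :=
  !₂[(m : ℂ) * z 0, (m : ℂ) * z 1 + (5 / 2 : ℂ) * m * (1 - m) * (z 0) ^ 2]

/-- The starlike map. -/
noncomputable def gg (z : E2) : E2 :=
  !₂[z 0 * ((1 - z 1)⁻¹ * Complex.exp (-(291 / 50 : ℂ) * (z 1 / (1 - z 1)))), z 1 / (1 - z 1)]

@[simp] theorem sh_zero_apply (m : ℝ) (z : E2) : sh m z 0 = (m : ℂ) * z 0 := by simp [sh]
@[simp] theorem sh_one_apply (m : ℝ) (z : E2) :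
    sh m z 1 = (m : ℂ) * z 1 + (5 / 2 : ℂ) * m * (1 - m) * (z 0) ^ 2 := by simp [sh]
@[simp] theorem gg_zero_apply (z : E2) :
    gg z 0 = z 0 * ((1 - z 1)⁻¹ * Complex.exp (-(291 / 50 : ℂ) * (z 1 / (1 - z 1)))) := by
  simp [gg]
@[simp] theorem gg_one_apply (z : E2) : gg z 1 = z 1 / (1 - z 1) := by simp [gg]

theorem sh_norm_sq (m : ℝ) (hm0 : 0 ≤ m) (hm1 : m ≤ 1) (z : E2) (hz : ‖z 0‖ ^ 2 + ‖z 1‖ ^ 2 ≤ 1) :
    ‖sh m z 0‖ ^ 2 + ‖sh m z 1‖ ^ 2 ≤ ‖z 0‖ ^ 2 + ‖z 1‖ ^ 2 := by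
  obtain ⟨x, hx⟩ : ∃ x : ℝ, x = ((z 0) ^ 2 * (starRingEnd ℂ) (z 1)).re := ⟨_, rfl⟩
  have hx2 : x ^ 2 ≤ (‖z 0‖ ^ 2) ^ 2 * ‖z 1‖ ^ 2 := by
    have h1 : |x| ≤ ‖(z 0) ^ 2 * (starRingEnd ℂ) (z 1)‖ := by rw [hx]; exact Complex.abs_re_le_norm _
    have h2 : ‖(z 0) ^ 2 * (starRingEnd ℂ) (z 1)‖ = ‖z 0‖ ^ 2 * ‖z 1‖ := by simp
    rw [h2] at h1
    calc x ^ 2 = |x| ^ 2 := (sq_abs x).symm
      _ ≤ (‖z 0‖ ^ 2 * ‖z 1‖) ^ 2 := by gcongr
      _ = _ := by ring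
  have h := shear_real (‖z 0‖ ^ 2) (‖z 1‖) x (by positivity) hx2 hz (1 - m) (by linarith)
    (by linarith)
  have e : ‖sh m z 0‖ ^ 2 + ‖sh m z 1‖ ^ 2 = (1 - (1 - m)) ^ 2 * (‖z 0‖ ^ 2 + ‖z 1‖ ^ 2 +
      5 * (1 - m) * x + 25 / 4 * (1 - m) ^ 2 * (‖z 0‖ ^ 2) ^ 2) := by
    rw [hx]
    simp only [sh_zero_apply, sh_one_apply, Complex.sq_norm, Complex.normSq_apply]
    simp only [Complex.mul_re, Complex.mul_im, Complex.add_re, Complex.add_im, Complex.ofReal_re,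
      Complex.ofReal_im, Complex.sub_re, Complex.sub_im, Complex.one_re, Complex.one_im, pow_two,
      Complex.conj_re, Complex.conj_im]
    have h52r : (5 / 2 : ℂ).re = 5 / 2 := by norm_num
    have h52i : (5 / 2 : ℂ).im = 0 := by norm_num
    rw [h52r, h52i]
    ring
  rw [e]
  exact h

theorem sh_norm_le (m : ℝ) (hm0 : 0 ≤ m) (hm1 : m ≤ 1) (z : E2) (hz : ‖z‖ ≤ 1) :
    ‖sh m z‖ ≤ ‖z‖ := by
  have hz' : ‖z 0‖ ^ 2 + ‖z 1‖ ^ 2 ≤ 1 := by
    rw [← norm_sq_E2]; nlinarith [norm_nonneg z]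
  have := sh_norm_sq m hm0 hm1 z hz'
  rw [← norm_sq_E2, ← norm_sq_E2] at this
  exact le_of_sq_le_sq this (norm_nonneg z) 

theorem norm_one_lt {z : E2} (hz : z ∈ Metric.ball (0 : E2) 1) : ‖z 1‖ < 1 := by
  rw [mem_ball_E2] at hz
  nlinarith [sq_nonneg ‖z 0‖, norm_nonneg (z 1)]

theorem one_sub_ne {z : E2} (hz : z ∈ Metric.ball (0 : E2) 1) : 1 - z 1 ≠ 0 := by
  intro h
  have h1 : z 1 = 1 := by linear_combination -h
  have := norm_one_lt hz
  rw [h1] at this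
  simp at this

theorem gg_injOn : Set.InjOn gg (Metric.ball (0 : E2) 1) := by
  intro z hz w hw h
  have hz1 := one_sub_ne hz
  have hw1 := one_sub_ne hw
  have h1 : gg z 1 = gg w 1 := by rw [h]
  have h0 : gg z 0 = gg w 0 := by rw [h]
  rw [gg_one_apply, gg_one_apply, div_eq_div_iff hz1 hw1] at h1
  have e1 : z 1 = w 1 := by linear_combination h1
  rw [gg_zero_apply, gg_zero_apply, e1] at h0
  have hne : (1 - w 1)⁻¹ * Complex.exp (-(291 / 50 : ℂ) * (w 1 / (1 - w 1))) ≠ 0 :=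
    mul_ne_zero (inv_ne_zero hw1) (Complex.exp_ne_zero _)
  have e0 : z 0 = w 0 := mul_right_cancel₀ hne h0
  ext i
  fin_cases i
  · exact e0
  · exact e1

theorem gg_star (y : E2) (hy : y ∈ Metric.ball (0 : E2) 1) (m : ℝ) (hm0 : 0 < m) (hm1 : m ≤ 1) :
    ∃ w ∈ Metric.ball (0 : E2) 1, gg w = (m : ℂ) • gg y := by
  have hy1 := one_sub_ne hy
  have hyn := norm_one_lt hy
  have hyb := (mem_ball_E2 y).1 hy
  -- the denominator
  obtain ⟨d, hd⟩ : ∃ d : ℂ, d = 1 - (1 - m) * y 1 := ⟨_, rfl⟩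
  have hd0 : d ≠ 0 := by
    intro h
    have h1 : (1 : ℂ) = (1 - m) * y 1 := by linear_combination h - hd
    have h2 : (1 : ℝ) = ‖((1 - m : ℝ) : ℂ)‖ * ‖y 1‖ := by
      rw [← norm_mul, Complex.ofReal_sub, Complex.ofReal_one, ← h1]; simp
    rw [Complex.norm_real, Real.norm_eq_abs, abs_of_nonneg (by linarith)] at h2
    nlinarith [norm_nonneg (y 1)]
  obtain ⟨W, hW⟩ : ∃ W : ℂ, W = y 1 / (1 - y 1) := ⟨_, rfl⟩
  obtain ⟨e, he⟩ : ∃ e : ℂ, e = Complex.exp (-(291 / 50 : ℂ) * ((1 - m) * W)) := ⟨_, rfl⟩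
  have hwdef : (!₂[(m : ℂ) * y 0 * e / d, (m : ℂ) * y 1 / d] : E2) 1 = (m : ℂ) * y 1 / d := by simp
  have hwdef0 : (!₂[(m : ℂ) * y 0 * e / d, (m : ℂ) * y 1 / d] : E2) 0 = (m : ℂ) * y 0 * e / d := by
    simp
  have hsub : 1 - (m : ℂ) * y 1 / d = (1 - y 1) / d := by
    field_simp
    rw [hd]; ring
  refine ⟨!₂[(m : ℂ) * y 0 * e / d, (m : ℂ) * y 1 / d], ?_, ?_⟩
  · rw [mem_ball_E2, hwdef, hwdef0]
    have hnd : 0 < ‖d‖ ^ 2 := by positivity
    rw [norm_div, norm_div, div_pow, div_pow, ← add_div, div_lt_one hnd]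
    rw [norm_mul, norm_mul, norm_mul, Complex.norm_real, Real.norm_eq_abs, abs_of_pos hm0]
    -- real part of W
    have hn1 : 0 < ‖1 - y 1‖ ^ 2 := by positivity
    have hWre : W.re * ‖1 - y 1‖ ^ 2 = (y 1).re - ‖y 1‖ ^ 2 := by
      rw [hW, Complex.div_re, Complex.sq_norm, Complex.sq_norm]
      have : Complex.normSq (1 - y 1) ≠ 0 := by
        rw [Complex.normSq_eq_zero.ne]; exact hy1
      field_simp
      simp only [Complex.normSq_apply, Complex.sub_re, Complex.sub_im, Complex.one_re,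
        Complex.one_im]
      ring
    have hnorm1 : ‖1 - y 1‖ ^ 2 = 1 - 2 * (y 1).re + ‖y 1‖ ^ 2 := by
      rw [Complex.sq_norm, Complex.sq_norm]
      simp only [Complex.normSq_apply, Complex.sub_re, Complex.sub_im, Complex.one_re,
        Complex.one_im]
      ring
    have hnormd : ‖d‖ ^ 2 = 1 - 2 * (1 - m) * (y 1).re + (1 - m) ^ 2 * ‖y 1‖ ^ 2 := by
      rw [hd, Complex.sq_norm, Complex.sq_norm]
      simp only [Complex.normSq_apply, Complex.sub_re, Complex.sub_im, Complex.one_re,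
        Complex.one_im, Complex.mul_re, Complex.mul_im, Complex.ofReal_re, Complex.ofReal_im]
      ring
    have hen : ‖e‖ ^ 2 = Real.exp (-(2 * (291 / 50) * (1 - m) * W.re)) := by
      rw [he, Complex.norm_exp, ← Real.exp_nat_mul]
      congr 1
      have : (-(291 / 50 : ℂ) * ((1 - m) * W)) = ((-(291 / 50) * (1 - m) : ℝ) : ℂ) * W := by
        push_cast; ring
      rw [this, Complex.re_ofReal_mul]
      push_cast; ring
    have hstar := star_real W.re m hm0 hm1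
    rw [← hen] at hstar
    have hx1 : (1 + 2 * W.re) * ‖1 - y 1‖ ^ 2 = 1 - ‖y 1‖ ^ 2 := by
      linear_combination 2 * hWre + hnorm1
    have hx2 : (1 + 2 * m * W.re) * ‖1 - y 1‖ ^ 2 = ‖d‖ ^ 2 - m ^ 2 * ‖y 1‖ ^ 2 := by
      linear_combination 2 * m * hWre + hnorm1 - hnormd
    have h3 : m ^ 2 * (1 - ‖y 1‖ ^ 2) * ‖e‖ ^ 2 ≤ ‖d‖ ^ 2 - m ^ 2 * ‖y 1‖ ^ 2 := by
      rw [← hx1, ← hx2]
      calc m ^ 2 * ((1 + 2 * W.re) * ‖1 - y 1‖ ^ 2) * ‖e‖ ^ 2 =
          (m ^ 2 * (1 + 2 * W.re) * ‖e‖ ^ 2) * ‖1 - y 1‖ ^ 2 := by ring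
        _ ≤ _ := mul_le_mul_of_nonneg_right hstar hn1.le
    have he0 : 0 < ‖e‖ ^ 2 := by rw [hen]; exact Real.exp_pos _
    have h4 : m ^ 2 * ‖y 0‖ ^ 2 * ‖e‖ ^ 2 < m ^ 2 * (1 - ‖y 1‖ ^ 2) * ‖e‖ ^ 2 := by
      apply mul_lt_mul_of_pos_right _ he0
      apply mul_lt_mul_of_pos_left _ (by positivity)
      linarith
    calc (m * ‖y 0‖ * ‖e‖) ^ 2 + (m * ‖y 1‖) ^ 2 = m ^ 2 * ‖y 0‖ ^ 2 * ‖e‖ ^ 2 +
        m ^ 2 * ‖y 1‖ ^ 2 := by ring
      _ < ‖d‖ ^ 2 := by linarith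
  · have hW1 : (m : ℂ) * y 1 / d / ((1 - y 1) / d) = m * W := by
      rw [hW]; field_simp
    ext i
    fin_cases i
    · show gg _ 0 = _
      rw [gg_zero_apply, hwdef, hwdef0, hsub, hW1]
      simp only [Fin.zero_eta, PiLp.smul_apply, smul_eq_mul]
      rw [gg_zero_apply, ← hW]
      have hexp : Complex.exp (-(291 / 50 : ℂ) * W) = e * Complex.exp (-(291 / 50 : ℂ) * (m * W)) := by
        rw [he, ← Complex.exp_add]; congr 1; ring
      rw [hexp]
      field_simp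
    · show gg _ 1 = _
      rw [gg_one_apply, hwdef, hsub, hW1]
      simp only [Fin.mk_one, PiLp.smul_apply, smul_eq_mul]
      rw [gg_one_apply, ← hW]

theorem gg_zero : gg 0 = 0 := by
  ext i; fin_cases i
  · show gg 0 0 = _
    simp
  · show gg 0 1 = _
    simp

theorem sh_zero (m : ℝ) : sh m 0 = 0 := by
  ext i; fin_cases i
  · show sh m 0 0 = _
    simp
  · show sh m 0 1 = _
    simp

theorem sh_sh (m n : ℝ) (z : E2) : sh m (sh n z) = sh (m * n) z := by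
  ext i; fin_cases i
  · show sh m (sh n z) 0 = sh (m * n) z 0
    simp; ring
  · show sh m (sh n z) 1 = sh (m * n) z 1
    simp; ring

theorem sh_one (z : E2) : sh 1 z = z := by
  ext i; fin_cases i
  · show sh 1 z 0 = z 0
    simp
  · show sh 1 z 1 = z 1
    simp

theorem sh_inj (m : ℝ) (hm : m ≠ 0) : Function.Injective (sh m) := by
  intro z w h
  have hm' : (m : ℂ) ≠ 0 := by exact_mod_cast hm
  have h0 : sh m z 0 = sh m w 0 := by rw [h]
  have h1 : sh m z 1 = sh m w 1 := by rw [h]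
  rw [sh_zero_apply, sh_zero_apply] at h0
  have e0 : z 0 = w 0 := mul_left_cancel₀ hm' h0
  rw [sh_one_apply, sh_one_apply, e0] at h1
  have e1 : z 1 = w 1 := mul_left_cancel₀ hm' (add_right_cancel h1)
  ext i; fin_cases i
  · exact e0
  · exact e1

theorem sh_mem (m : ℝ) (hm0 : 0 ≤ m) (hm1 : m ≤ 1) {z : E2} (hz : z ∈ Metric.ball (0 : E2) 1) :
    sh m z ∈ Metric.ball (0 : E2) 1 := by
  rw [mem_ball_zero_iff] at hz ⊢
  exact lt_of_le_of_lt (sh_norm_le m hm0 hm1 z hz.le) hz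

theorem isOpen_dom : IsOpen {z : E2 | 1 - z 1 ≠ 0} := by
  apply isOpen_ne.preimage (f := fun z : E2 => 1 - z 1)
  fun_prop

theorem gg_contDiffAt (z : E2) (hz : 1 - z 1 ≠ 0) : ContDiffAt ℂ ⊤ gg z := by
  rw [contDiffAt_euclidean]
  have c0 : ContDiffAt ℂ ⊤ (fun z : E2 => z 0) z := by fun_prop
  have c1 : ContDiffAt ℂ ⊤ (fun z : E2 => z 1) z := by fun_prop
  have cs : ContDiffAt ℂ ⊤ (fun z : E2 => 1 - z 1) z := contDiffAt_const.sub c1
  have ci : ContDiffAt ℂ ⊤ (fun z : E2 => (1 - z 1)⁻¹) z := cs.inv hz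
  have cd : ContDiffAt ℂ ⊤ (fun z : E2 => z 1 / (1 - z 1)) z := c1.div cs hz
  intro i
  fin_cases i
  · have : (fun z : E2 => gg z 0) = fun z : E2 =>
      z 0 * ((1 - z 1)⁻¹ * Complex.exp (-(291 / 50 : ℂ) * (z 1 / (1 - z 1)))) := by
      ext z; simp
    show ContDiffAt ℂ ⊤ (fun z : E2 => gg z 0) z
    rw [this]
    exact c0.mul (ci.mul (contDiffAt_const.mul cd).cexp)
  · have : (fun z : E2 => gg z 1) = fun z : E2 => z 1 / (1 - z 1) := by
      ext z; simp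
    show ContDiffAt ℂ ⊤ (fun z : E2 => gg z 1) z
    rw [this]
    exact cd

theorem sh_contDiff (m : ℝ) : ContDiff ℂ ⊤ (sh m) := by
  rw [contDiff_euclidean]
  intro i
  fin_cases i
  · have : (fun z : E2 => sh m z 0) = fun z : E2 => (m : ℂ) * z 0 := by ext z; simp
    show ContDiff ℂ ⊤ (fun z : E2 => sh m z 0)
    rw [this]; fun_prop
  · have : (fun z : E2 => sh m z 1) = fun z : E2 => (m : ℂ) * z 1 +
      (5 / 2 : ℂ) * m * (1 - m) * (z 0) ^ 2 := by ext z; simp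
    show ContDiff ℂ ⊤ (fun z : E2 => sh m z 1)
    rw [this]; fun_prop

/-- derivative of `sh m` at `0`. -/
theorem sh_hasFDerivAt (m : ℝ) :
    HasFDerivAt (sh m) ((m : ℂ) • ContinuousLinearMap.id ℂ E2) 0 := by
  have hd : HasFDerivAt (sh m) (fderiv ℂ (sh m) 0) 0 :=
    ((sh_contDiff m).differentiable (by simp) 0).hasFDerivAt
  rw [← hasFDerivWithinAt_univ, hasFDerivWithinAt_euclidean]
  intro i
  rw [hasFDerivWithinAt_univ]
  have h0 : HasFDerivAt (fun z : E2 => z 0) (PiLp.proj 2 (fun _ => ℂ) 0 : E2 →L[ℂ] ℂ) 0 :=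
    (PiLp.proj 2 (fun _ => ℂ) 0 : E2 →L[ℂ] ℂ).hasFDerivAt
  have h1 : HasFDerivAt (fun z : E2 => z 1) (PiLp.proj 2 (fun _ => ℂ) 1 : E2 →L[ℂ] ℂ) 0 :=
    (PiLp.proj 2 (fun _ => ℂ) 1 : E2 →L[ℂ] ℂ).hasFDerivAt
  fin_cases i
  · have : (fun z : E2 => sh m z 0) = fun z : E2 => (m : ℂ) * z 0 := by ext z; simp
    show HasFDerivAt (fun z : E2 => sh m z 0) _ 0
    rw [this]
    have h := h0.const_mul (m : ℂ)
    refine h.congr_fderiv ?_
    ext v; simp
  · have : (fun z : E2 => sh m z 1) = fun z : E2 => (m : ℂ) * z 1 +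
      (5 / 2 : ℂ) * m * (1 - m) * (z 0) ^ 2 := by ext z; simp
    show HasFDerivAt (fun z : E2 => sh m z 1) _ 0
    rw [this]
    have h := (h1.const_mul (m : ℂ)).add ((h0.pow 2).const_mul ((5 / 2 : ℂ) * m * (1 - m)))
    refine h.congr_fderiv ?_
    ext v; simp

theorem gg_hasFDerivAt : HasFDerivAt gg (ContinuousLinearMap.id ℂ E2) 0 := by
  rw [← hasFDerivWithinAt_univ, hasFDerivWithinAt_euclidean]
  intro i
  rw [hasFDerivWithinAt_univ]
  have h0 : HasFDerivAt (fun z : E2 => z 0) (PiLp.proj 2 (fun _ => ℂ) 0 : E2 →L[ℂ] ℂ) 0 :=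
    (PiLp.proj 2 (fun _ => ℂ) 0 : E2 →L[ℂ] ℂ).hasFDerivAt
  have h1 : HasFDerivAt (fun z : E2 => z 1) (PiLp.proj 2 (fun _ => ℂ) 1 : E2 →L[ℂ] ℂ) 0 :=
    (PiLp.proj 2 (fun _ => ℂ) 1 : E2 →L[ℂ] ℂ).hasFDerivAt
  have hsub : (1 : ℂ) - (0 : E2) 1 ≠ 0 := by simp
  have c1 : ContDiffAt ℂ 1 (fun z : E2 => z 1) 0 := by fun_prop
  have cs : ContDiffAt ℂ 1 (fun z : E2 => 1 - z 1) 0 := contDiffAt_const.sub c1
  have ci : ContDiffAt ℂ 1 (fun z : E2 => (1 - z 1)⁻¹) 0 := cs.inv hsub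
  have cd : ContDiffAt ℂ 1 (fun z : E2 => z 1 / (1 - z 1)) 0 := c1.div cs hsub
  fin_cases i
  · have : (fun z : E2 => gg z 0) = fun z : E2 =>
      z 0 * ((1 - z 1)⁻¹ * Complex.exp (-(291 / 50 : ℂ) * (z 1 / (1 - z 1)))) := by
      ext z; simp
    show HasFDerivAt (fun z : E2 => gg z 0) _ 0
    rw [this]
    have hK : HasFDerivAt (fun z : E2 => ((1 - z 1)⁻¹ * Complex.exp (-(291 / 50 : ℂ) *
        (z 1 / (1 - z 1))))) _ 0 :=
      ((ci.mul (contDiffAt_const.mul cd).cexp).differentiableAt (by simp)).hasFDerivAt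
    have h := h0.mul hK
    refine h.congr_fderiv ?_
    ext v; simp
  · have : (fun z : E2 => gg z 1) = fun z : E2 => z 1 * (1 - z 1)⁻¹ := by
      ext z; simp [div_eq_mul_inv]
    show HasFDerivAt (fun z : E2 => gg z 1) _ 0
    rw [this]
    have hK : HasFDerivAt (fun z : E2 => (1 - z 1)⁻¹) _ 0 :=
      (ci.differentiableAt (by simp)).hasFDerivAt
    have h := h1.mul hK
    refine h.congr_fderiv ?_
    ext v; simp

/-- The Loewner chain. -/
noncomputable def chain (t : ℝ) (z : E2) : E2 :=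
  ((max 2 (Real.exp t) : ℝ) : ℂ) • gg (sh (min (Real.exp t / 2) 1) z)

theorem max_mul_min (t : ℝ) : max 2 (Real.exp t) * min (Real.exp t / 2) 1 = Real.exp t := by
  rcases le_total (Real.exp t) 2 with h | h
  · rw [max_eq_left h, min_eq_left (by linarith)]; ring
  · rw [max_eq_right h, min_eq_right (by linarith)]; ring

theorem min_pos' (t : ℝ) : 0 < min (Real.exp t / 2) 1 := lt_min (by positivity) one_pos

theorem chain_fderiv (t : ℝ) : fderiv ℂ (chain t) 0 =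
    ((Real.exp t : ℝ) : ℂ) • ContinuousLinearMap.id ℂ E2 := by
  apply HasFDerivAt.fderiv
  have h1 := sh_hasFDerivAt (min (Real.exp t / 2) 1)
  have h2 : HasFDerivAt gg (ContinuousLinearMap.id ℂ E2) (sh (min (Real.exp t / 2) 1) 0) := by
    rw [sh_zero]; exact gg_hasFDerivAt
  have h3 := (h2.comp 0 h1).const_smul ((max 2 (Real.exp t) : ℝ) : ℂ)
  refine h3.congr_fderiv ?_
  rw [ContinuousLinearMap.id_comp, smul_smul, ← Complex.ofReal_mul, max_mul_min]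

theorem chain_differentiableOn (t : ℝ) : DifferentiableOn ℂ (chain t) (Metric.ball 0 1) := by
  intro z hz
  have hm := sh_mem (min (Real.exp t / 2) 1) (min_pos' t).le (min_le_right _ _) hz
  have h1 : DifferentiableAt ℂ gg (sh (min (Real.exp t / 2) 1) z) :=
    (gg_contDiffAt _ (one_sub_ne hm)).differentiableAt (by simp)
  have h2 : DifferentiableAt ℂ (sh (min (Real.exp t / 2) 1)) z :=
    (sh_contDiff _).differentiable (by simp) z
  exact ((h1.comp z h2).const_smul (((max 2 (Real.exp t) : ℝ)) : ℂ)).differentiableWithinAt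

theorem chain_injOn (t : ℝ) : Set.InjOn (chain t) (Metric.ball 0 1) := by
  intro z hz w hw h
  have hne : (((max 2 (Real.exp t) : ℝ)) : ℂ) ≠ 0 := by
    have : (0:ℝ) < max 2 (Real.exp t) := lt_max_of_lt_left (by norm_num)
    exact_mod_cast this.ne'
  have h1 := smul_right_injective E2 hne h
  have h2 := gg_injOn (sh_mem _ (min_pos' t).le (min_le_right _ _) hz)
    (sh_mem _ (min_pos' t).le (min_le_right _ _) hw) h1
  exact sh_inj _ (min_pos' t).ne' h2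

theorem chain_zero (t : ℝ) : chain t 0 = 0 := by
  simp [chain, sh_zero, gg_zero]

theorem chain_image (s t : ℝ) (hst : s ≤ t) :
    chain s '' Metric.ball 0 1 ⊆ chain t '' Metric.ball 0 1 := by
  rintro _ ⟨z, hz, rfl⟩
  have hexp : Real.exp s ≤ Real.exp t := Real.exp_le_exp.2 hst
  rcases le_total (Real.exp t) 2 with h | h
  · -- both in the shear phase
    have hs : Real.exp s ≤ 2 := hexp.trans h
    have hq0 : 0 < Real.exp s / Real.exp t := by positivity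
    have hq1 : Real.exp s / Real.exp t ≤ 1 := (div_le_one (Real.exp_pos t)).2 hexp
    refine ⟨sh (Real.exp s / Real.exp t) z, sh_mem _ hq0.le hq1 hz, ?_⟩
    unfold chain
    rw [sh_sh, max_eq_left h, max_eq_left hs, min_eq_left (by linarith), min_eq_left (by linarith)]
    congr 3
    field_simp
  · -- `t` in the dilation phase
    have hm := sh_mem (min (Real.exp s / 2) 1) (min_pos' s).le (min_le_right _ _) hz
    have hp : (0:ℝ) < max 2 (Real.exp s) := lt_max_of_lt_left (by norm_num)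
    have hq0 : 0 < max 2 (Real.exp s) / Real.exp t := by positivity
    have hq1 : max 2 (Real.exp s) / Real.exp t ≤ 1 :=
      (div_le_one (Real.exp_pos t)).2 (max_le h hexp)
    obtain ⟨w, hw, hgw⟩ := gg_star _ hm _ hq0 hq1
    refine ⟨w, hw, ?_⟩
    unfold chain
    rw [max_eq_right h, min_eq_right (a := Real.exp t / 2) (by linarith), sh_one, hgw, smul_smul,
      ← Complex.ofReal_mul]
    congr 2
    have : Real.exp t ≠ 0 := (Real.exp_pos t).ne'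
    field_simp

theorem chain_bound (r : ℝ) (hr : r < 1) : ∃ C : ℝ, ∀ t : ℝ, 0 ≤ t →
    ∀ z : E2, ‖z‖ ≤ r → ‖chain t z‖ ≤ C * Real.exp t := by
  have hc : ContinuousOn gg (Metric.closedBall (0 : E2) r) := by
    intro z hz
    have hz' : z ∈ Metric.ball (0 : E2) 1 := by
      rw [mem_ball_zero_iff]; rw [mem_closedBall_zero_iff] at hz; linarith
    exact (gg_contDiffAt z (one_sub_ne hz')).continuousAt.continuousWithinAt
  obtain ⟨C, hC⟩ := (isCompact_closedBall (0 : E2) r).exists_bound_of_continuousOn hc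
  refine ⟨2 * C, fun t ht z hz => ?_⟩
  have h1 : ‖sh (min (Real.exp t / 2) 1) z‖ ≤ ‖z‖ :=
    sh_norm_le _ (min_pos' t).le (min_le_right _ _) z (by linarith)
  have h2 := hC (sh (min (Real.exp t / 2) 1) z) (by
    rw [mem_closedBall_zero_iff]; linarith)
  have hC0 : 0 ≤ C := (norm_nonneg _).trans h2
  have he : 1 ≤ Real.exp t := Real.one_le_exp ht
  unfold chain
  rw [norm_smul, Complex.norm_real, Real.norm_eq_abs,
    abs_of_pos (lt_max_of_lt_left (by norm_num : (0:ℝ) < 2))]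
  have h3 : max 2 (Real.exp t) ≤ 2 * Real.exp t := max_le (by linarith) (by linarith)
  calc max 2 (Real.exp t) * ‖gg (sh (min (Real.exp t / 2) 1) z)‖ ≤ (2 * Real.exp t) * C := by
        gcongr
    _ = 2 * C * Real.exp t := by ring

end Pool.Agent.H47
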