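import Mathlib
import Pool.Agent.H47.Bieb

set_option autoImplicit false

namespace Pool.Agent.H47

open Complex

/-- one-variable profile -/
noncomputable def KK (v : ℂ) : ℂ := (1 - v)⁻¹ * Complex.exp (-(291 / 50 : ℂ) * (v / (1 - v)))

theorem KK_contDiffAt (v : ℂ) (hv : 1 - v ≠ 0) : ContDiffAt ℂ ⊤ KK v := by
  have cs : ContDiffAt ℂ ⊤ (fun v : ℂ => 1 - v) v := by fun_prop
  have ci : ContDiffAt ℂ ⊤ (fun v : ℂ => (1 - v)⁻¹) v := cs.inv hv
  have cd : ContDiffAt ℂ ⊤ (fun v : ℂ => v / (1 - v)) v := contDiffAt_id.div cs hv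
  exact ci.mul (contDiffAt_const.mul cd).cexp

theorem KK_hasDerivAt : HasDerivAt KK (1 - 291 / 50) 0 := by
  have h1 : HasDerivAt (fun v : ℂ => 1 - v) (-1) 0 := by
    simpa using (hasDerivAt_id (0:ℂ)).const_sub 1
  have h2 : HasDerivAt (fun v : ℂ => (1 - v)⁻¹) (1) 0 := by
    have := h1.inv (by simp)
    exact this.congr_deriv (by simp)
  have h3 : HasDerivAt (fun v : ℂ => v / (1 - v)) 1 0 := by
    have := (hasDerivAt_id (0:ℂ)).div h1 (by simp)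
    exact this.congr_deriv (by simp)
  have h4 : HasDerivAt (fun v : ℂ => Complex.exp (-(291 / 50 : ℂ) * (v / (1 - v))))
      (-(291 / 50)) 0 := by
    have := (h3.const_mul (-(291 / 50 : ℂ))).cexp
    exact this.congr_deriv (by simp)
  have h := h2.mul h4
  exact h.congr_deriv (by simp; ring)

theorem psi_contDiffAt : ContDiffAt ℂ ⊤ (fun x : ℂ => KK (5 / 8 * x ^ 2)) 0 := by
  have h1 : ContDiffAt ℂ ⊤ KK ((fun x : ℂ => 5 / 8 * x ^ 2) 0) := KK_contDiffAt _ (by simp)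
  have h2 : ContDiffAt ℂ ⊤ (fun x : ℂ => 5 / 8 * x ^ 2) 0 := by fun_prop
  exact h1.comp (0 : ℂ) h2

theorem psi_deriv2 : iteratedDeriv 2 (fun x : ℂ => KK (5 / 8 * x ^ 2)) 0 =
    5 / 4 * (1 - 291 / 50) := by
  rw [iteratedDeriv_succ, iteratedDeriv_one]
  have hev : deriv (fun x : ℂ => KK (5 / 8 * x ^ 2)) =ᶠ[nhds 0]
      fun x : ℂ => (5 / 4 * x) * deriv KK (5 / 8 * x ^ 2) := by
    have hopen : IsOpen {x : ℂ | 1 - 5 / 8 * x ^ 2 ≠ 0} := by
      apply isOpen_ne.preimage (f := fun x : ℂ => 1 - 5 / 8 * x ^ 2)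
      fun_prop
    have h0 : (0 : ℂ) ∈ {x : ℂ | 1 - 5 / 8 * x ^ 2 ≠ 0} := by simp
    filter_upwards [hopen.mem_nhds h0] with x hx
    have hK : HasDerivAt KK (deriv KK (5 / 8 * x ^ 2)) (5 / 8 * x ^ 2) :=
      ((KK_contDiffAt _ hx).differentiableAt (by simp)).hasDerivAt
    have hq : HasDerivAt (fun x : ℂ => 5 / 8 * x ^ 2) (5 / 4 * x) x := by
      have := ((hasDerivAt_id x).pow 2).const_mul (5 / 8 : ℂ)
      exact this.congr_deriv (by simp only [id]; push_cast; ring)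
    have := hK.comp x hq
    rw [mul_comm]
    exact this.deriv
  rw [hev.deriv_eq]
  have hK1 : DifferentiableAt ℂ (deriv KK) (5 / 8 * (0:ℂ) ^ 2) := by
    have h1 : AnalyticAt ℂ KK (5 / 8 * (0:ℂ) ^ 2) :=
      (KK_contDiffAt _ (by simp)).analyticAt
    exact h1.deriv.differentiableAt
  have hA : HasDerivAt (fun x : ℂ => 5 / 4 * x) (5 / 4) 0 := by
    simpa using (hasDerivAt_id (0:ℂ)).const_mul (5 / 4 : ℂ)
  have hB : HasDerivAt (fun x : ℂ => deriv KK (5 / 8 * x ^ 2))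
      (deriv (fun x : ℂ => deriv KK (5 / 8 * x ^ 2)) 0) 0 := by
    apply DifferentiableAt.hasDerivAt
    have h2 : DifferentiableAt ℂ (fun x : ℂ => 5 / 8 * x ^ 2) 0 := by fun_prop
    exact hK1.comp (0:ℂ) h2
  refine (hA.mul hB).deriv.trans ?_
  simp [KK_hasDerivAt.deriv]

theorem phi_deriv3 : iteratedDeriv 3 (fun x : ℂ => x * KK (5 / 8 * x ^ 2)) 0 =
    15 / 4 * (1 - 291 / 50) := by
  have h := iteratedDeriv_mul (n := 3) (x := (0:ℂ)) (f := fun x : ℂ => x)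
    (g := fun x : ℂ => KK (5 / 8 * x ^ 2)) (by fun_prop) (psi_contDiffAt.of_le le_top)
  have e : (fun x : ℂ => x * KK (5 / 8 * x ^ 2)) = (fun x : ℂ => x) *
    (fun x : ℂ => KK (5 / 8 * x ^ 2)) := rfl
  rw [e, h]
  have i0 : iteratedDeriv 0 (fun x : ℂ => x) 0 = 0 := by simp
  have i1 : iteratedDeriv 1 (fun x : ℂ => x) 0 = 1 := by simp [iteratedDeriv_one]
  have i2 : iteratedDeriv 2 (fun x : ℂ => x) 0 = 0 := by
    rw [iteratedDeriv_succ, iteratedDeriv_one]; simp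
  have i3 : iteratedDeriv 3 (fun x : ℂ => x) 0 = 0 := by
    rw [iteratedDeriv_succ, iteratedDeriv_succ, iteratedDeriv_one]; simp
  simp only [Finset.sum_range_succ, Finset.sum_range_zero, i0, i1, i2, i3]
  simp
  rw [psi_deriv2]
  ring

/-- the first coordinate vector -/
noncomputable abbrev e0 : E2 := EuclideanSpace.single (0 : Fin 2) (1 : ℂ)

theorem chain0_apply (z : E2) : chain 0 z = (2 : ℂ) • gg (sh (1 / 2) z) := by
  unfold chain
  have h1 : max 2 (Real.exp 0) = 2 := by simp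
  have h2 : min (Real.exp 0 / 2) 1 = 1 / 2 := by rw [Real.exp_zero]; norm_num
  rw [h1, h2]; norm_num

theorem coeff_eq : EuclideanSpace.proj (0 : Fin 2)
    (iteratedFDeriv ℂ 3 (chain 0) 0 (fun _ => e0)) = 15 / 4 * (1 - 291 / 50) := by
  obtain ⟨S, hS⟩ : ∃ S : Set E2, S = {z : E2 | 1 - (sh (1 / 2) z) 1 ≠ 0} := ⟨_, rfl⟩
  have hSopen : IsOpen S := by
    rw [hS]
    apply isOpen_ne.preimage (f := fun z : E2 => 1 - (sh (1 / 2) z) 1)
    simp only [sh_one_apply]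
    fun_prop
  have h0S : (0 : E2) ∈ S := by rw [hS]; simp
  have hcd : ∀ z ∈ S, ContDiffAt ℂ ⊤ (chain 0) z := by
    intro z hz
    rw [hS] at hz
    have h1 : ContDiffAt ℂ ⊤ gg (sh (1 / 2) z) := gg_contDiffAt _ hz
    have h2 : ContDiffAt ℂ ⊤ (sh (1 / 2)) z := (sh_contDiff _).contDiffAt
    have h3 := (h1.comp z h2).const_smul (2 : ℂ)
    have e : chain 0 = fun z => (2 : ℂ) • (gg ∘ sh (1 / 2)) z := by
      ext1 z; rw [chain0_apply]; rfl
    rw [e]; exact h3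
  let L : ℂ →L[ℂ] E2 := ContinuousLinearMap.toSpanSingleton ℂ e0
  have hL1 : L 1 = e0 := by simp [L]
  have hL0 : L 0 = 0 := by simp
  have hpre : IsOpen (L ⁻¹' S) := hSopen.preimage L.continuous
  have hcomp := L.iteratedFDerivWithin_comp_right (f := chain 0) (s := S) (n := ⊤) (i := 3) (x := 0)
    (fun z hz => (hcd z hz).contDiffWithinAt) hSopen.uniqueDiffOn hpre.uniqueDiffOn
    (by rw [hL0]; exact h0S) le_top
  rw [iteratedFDerivWithin_of_isOpen 3 hpre (show (0:ℂ) ∈ L ⁻¹' S by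
    show L 0 ∈ S
    rw [hL0]; exact h0S), hL0, iteratedFDerivWithin_of_isOpen 3 hSopen h0S] at hcomp
  have h1 : iteratedFDeriv ℂ 3 (chain 0) 0 (fun _ => e0) =
      iteratedFDeriv ℂ 3 (chain 0 ∘ L) 0 (fun _ => 1) := by
    rw [hcomp, ContinuousMultilinearMap.compContinuousLinearMap_apply]
    simp only [hL1]
  rw [h1]
  have hcdL : ContDiffAt ℂ 3 (chain 0 ∘ L) 0 := by
    have : ContDiffAt ℂ ⊤ (chain 0) (L 0) := by rw [hL0]; exact hcd 0 h0S
    exact (this.comp 0 L.contDiff.contDiffAt).of_le le_top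
  have h2 := (EuclideanSpace.proj (0 : Fin 2) : E2 →L[ℂ] ℂ).iteratedFDeriv_comp_left hcdL
    (i := 3) le_rfl
  have h3 : EuclideanSpace.proj (0 : Fin 2) (iteratedFDeriv ℂ 3 (chain 0 ∘ L) 0 (fun _ => 1)) =
      iteratedFDeriv ℂ 3 ((EuclideanSpace.proj (0 : Fin 2) : E2 →L[ℂ] ℂ) ∘ (chain 0 ∘ L)) 0
        (fun _ => 1) := by
    rw [h2]; rfl
  rw [h3]
  have h4 : ((EuclideanSpace.proj (0 : Fin 2) : E2 →L[ℂ] ℂ) ∘ (chain 0 ∘ L)) =
      fun x : ℂ => x * KK (5 / 8 * x ^ 2) := by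
    ext x
    show (chain 0 (x • e0)) 0 = _
    have hx0 : (x • e0 : E2) 0 = x := by simp
    have hx1 : (x • e0 : E2) 1 = 0 := by simp
    rw [chain0_apply, PiLp.smul_apply, gg_zero_apply, sh_zero_apply, sh_one_apply, hx0, hx1,
      smul_eq_mul, KK]
    have hv : ((1 / 2 : ℝ) : ℂ) * 0 + 5 / 2 * ((1 / 2 : ℝ) : ℂ) * (1 - ((1 / 2 : ℝ) : ℂ)) * x ^ 2 =
        5 / 8 * x ^ 2 := by push_cast; ring
    rw [hv]
    push_cast
    ring
  rw [h4, ← iteratedDeriv_eq_iteratedFDeriv, phi_deriv3]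

end Pool.Agent.H47
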